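import Pool.Agent.Y289.HI.All3

set_option autoImplicit false

/-!
# Circumscribed polygons with equal angles but one, and regular polygons, are determined by their
Dirichlet spectrum among all convex polygons

A convex polygon which is circumscribed about a circle, and all of whose angles are equal, except
for one which is at least as large as the others, is congruent to each convex polygon, with any
number of vertices, which has the same Dirichlet spectrum. In particular this holds for the regular
polygons.
-/

open Complex EuclideanGeometry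
open Pool.Agent.W780.PG (IsConvexPolygon region lft)
open Pool.Agent.W703.GP (Isospectral)
open scoped Real

namespace Pool.Agent.Results.MP_5b0138_an.CircumscribedPolygons

/-- First part: `o` is at distance `r`, on the inner side, from the line through `p i` and
`p (i + 1)` for each `i`, and all the angles of the polygon are `α`, except the one at `p k`, which
is at least `α`; the polygon `q` has `m + 3` vertices, `m` arbitrary. Second part: `c * ζ ^ j + v`,
`ζ = exp (2 π i / (n + 3))`, `j = 0, ..., n + 2`, are the vertices of an arbitrary regular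
polygon. -/
theorem result :
    (∀ (n : ℕ) (p : Fin (n + 3) → ℂ), IsConvexPolygon p →
      ∀ (o : ℂ) (r : ℝ), 0 < r → (∀ i, lft (p i) (p (i + 1)) o = r * ‖p (i + 1) - p i‖) →
      ∀ (k : Fin (n + 3)) (α : ℝ), (∀ j, j ≠ k → ∠ (p (j - 1)) (p j) (p (j + 1)) = α) →
      α ≤ ∠ (p (k - 1)) (p k) (p (k + 1)) →
      ∀ (m : ℕ) (q : Fin (m + 3) → ℂ), IsConvexPolygon q → Isospectral (region p) (region q) →
        ∃ φ : ℂ ≃ᵢ ℂ, φ '' region p = region q) ∧
    ∀ (n : ℕ) (c v : ℂ), c ≠ 0 → ∀ p : Fin (n + 3) → ℂ,
      (∀ j, p j = c * exp (2 * π * (j : ℕ) / (n + 3) * I) + v) → IsConvexPolygon p ∧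
      ∀ (m : ℕ) (q : Fin (m + 3) → ℂ), IsConvexPolygon q → Isospectral (region p) (region q) →
        ∃ φ : ℂ ≃ᵢ ℂ, φ '' region p = region q := by
  refine ⟨fun n p hp o r hr ho k α h1 h2 m q hq h =>
    Pool.Agent.Y289.HI.circ n m p hp ⟨o, r, hr, ho⟩ k α h1 h2 q hq h, fun n c v hc p hp => ?_⟩
  obtain rfl : p = fun j => c * Pool.Agent.Y289.HI.rp n j + v := funext hp
  exact ⟨(Pool.Agent.Y289.HI.h_RE n c v hc).1, fun m q hq h =>
    Pool.Agent.Y289.HI.regular n m c v hc q hq h⟩

end Pool.Agent.Results.MP_5b0138_an.CircumscribedPolygons
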