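import Pool.Agent.Y289.ST.Glob

/-! Global Lipschitz stability of the inverse spectral problem for almost every convex polygon:
approximate knowledge of finitely many Dirichlet eigenvalues determines the polygon, up to finitely
many possibilities, with an error which is linear in the error of the eigenvalues. -/

open Set MeasureTheory
open Pool.Agent.W780.PG (IsConvexPolygon region)
open Pool.Agent.W703.GP (Isospectral dirichletEigenvalue)

namespace Pool.Agent.Results.MP_5b0138_an.GenericStability

/-- There is an open set `G` of lists of `n + 3` points of the plane, containing Lebesgue-almost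
every list of the vertices of a convex polygon, such that for each `p` in `G` there are a number `K`,
constants `C` and `δ > 0` and a finite set `S` of convex polygons isospectral to `p` such that the
following holds for `0 ≤ ε ≤ δ`: each convex polygon with at most `n + 3` vertices whose first `K`
Dirichlet eigenvalues differ from those of `p` by at most `ε` has exactly `n + 3` vertices, and these
are, after a rotation and a translation, at distance at most `C ε` from the corresponding vertices of
a member of `S`. -/
theorem result (n : ℕ) :
    ∃ G : Set (Fin (n + 3) → ℂ), IsOpen G ∧ volume ({p | IsConvexPolygon p} \ G) = 0 ∧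
      ∀ p ∈ G, IsConvexPolygon p ∧ ∃ (K : ℕ) (C δ : ℝ) (S : Set (Fin (n + 3) → ℂ)),
        0 < δ ∧ S.Finite ∧
        (∀ Q ∈ S, IsConvexPolygon Q ∧ Isospectral (region p) (region Q)) ∧
        ∀ m ≤ n, ∀ q : Fin (m + 3) → ℂ, IsConvexPolygon q → ∀ ε : ℝ, 0 ≤ ε → ε ≤ δ →
          (∀ k, 1 ≤ k → k ≤ K →
            |dirichletEigenvalue (region q) k - dirichletEigenvalue (region p) k| ≤ ε) →
          ∃ h : m = n, ∃ Q ∈ S, ∃ (θ : ℝ) (v : ℂ), ∀ i : Fin (m + 3),
            ‖q i - (Complex.exp (θ * Complex.I) * Q (Fin.cast (congrArg (· + 3) h) i) + v)‖
              ≤ C * ε :=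
  Pool.Agent.Y289.ST.stability n

end Pool.Agent.Results.MP_5b0138_an.GenericStability
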