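import Pool.Agent.Y289.SQ.All2

set_option autoImplicit false

/-!
# Every quadrilateral near a square is determined by its Dirichlet spectrum

There is `ε > 0` such that every quadrilateral whose vertices are at distance less than `ε` times
the side from the vertices of a square is convex, and is congruent to each convex polygon with at
most four vertices which has the same Dirichlet spectrum.
-/

open Complex
open Pool.Agent.W780.PG (IsConvexPolygon region)
open Pool.Agent.W703.GP (Isospectral)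

namespace Pool.Agent.Results.MP_5b0138_an.QuadrilateralsNearSquares

/-- `v`, `v + c`, `v + c + i c`, `v + i c` are the vertices of an arbitrary square, of side `‖c‖`,
and `p 0`, `p 1`, `p 2`, `p 3` are the vertices of the quadrilateral. -/
theorem result : ∃ ε : ℝ, 0 < ε ∧ ∀ c v : ℂ, c ≠ 0 → ∀ p : Fin (1 + 3) → ℂ,
    ‖p 0 - v‖ < ε * ‖c‖ → ‖p 1 - (v + c)‖ < ε * ‖c‖ → ‖p 2 - (v + c + I * c)‖ < ε * ‖c‖ →
    ‖p 3 - (v + I * c)‖ < ε * ‖c‖ →
    IsConvexPolygon p ∧
      ∀ m : ℕ, m ≤ 1 → ∀ q : Fin (m + 3) → ℂ, IsConvexPolygon q →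
        Isospectral (region p) (region q) → ∃ φ : ℂ ≃ᵢ ℂ, φ '' region p = region q := by
  obtain ⟨ε, hε, h⟩ := Pool.Agent.Y289.SQ.near_square
  refine ⟨ε, hε, fun c v hc p h0 h1 h2 h3 => ?_⟩
  refine h c v hc p fun i => ?_
  fin_cases i
  · have e : c * Pool.Agent.Y289.SQ.sqv 0 + v = v := by simp [Pool.Agent.Y289.SQ.sqv]
    change ‖p 0 - (c * Pool.Agent.Y289.SQ.sqv 0 + v)‖ < _
    rw [e]
    exact h0
  · have e : c * Pool.Agent.Y289.SQ.sqv 1 + v = v + c := by
      simp [Pool.Agent.Y289.SQ.sqv]; ring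
    change ‖p 1 - (c * Pool.Agent.Y289.SQ.sqv 1 + v)‖ < _
    rw [e]
    exact h1
  · have e : c * Pool.Agent.Y289.SQ.sqv 2 + v = v + c + I * c := by
      simp [Pool.Agent.Y289.SQ.sqv]; ring
    change ‖p 2 - (c * Pool.Agent.Y289.SQ.sqv 2 + v)‖ < _
    rw [e]
    exact h2
  · have e : c * Pool.Agent.Y289.SQ.sqv 3 + v = v + I * c := by
      simp [Pool.Agent.Y289.SQ.sqv]; ring
    change ‖p 3 - (c * Pool.Agent.Y289.SQ.sqv 3 + v)‖ < _
    rw [e]
    exact h3

end Pool.Agent.Results.MP_5b0138_an.QuadrilateralsNearSquares
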